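import Pool.Agent.Lib.KV.SpecK1

/-!
# KV (MP_64edc4_ag, all dimensions), block K1: algebraic charts
-/

set_option autoImplicit false

open Set Filter Topology Metric

namespace KV

open KP

namespace AlCAux

theorem ball_iff {n : ℕ} (v : Cn n) {r : ℝ} (hr : 0 < r) (x : Fin n ⊕ Fin n → ℝ) :
    cpx x ∈ ball v r ↔ ∀ i : Fin n,
      (x (Sum.inl i) - (v i).re) ^ 2 + (x (Sum.inr i) - (v i).im) ^ 2 < r ^ 2 := by
  rw [mem_ball, dist_pi_lt_iff hr]
  refine forall_congr' fun i => ?_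
  have h1 : dist (cpx x i) (v i) ^ 2 =
      (x (Sum.inl i) - (v i).re) ^ 2 + (x (Sum.inr i) - (v i).im) ^ 2 := by
    rw [dist_eq_norm, Complex.sq_norm, Complex.normSq_apply]
    simp [cpx]
    ring
  rw [← h1]
  exact (pow_lt_pow_iff_left₀ dist_nonneg hr.le (by norm_num)).symm

theorem sq_ball {n : ℕ} (v : Cn n) {r : ℝ} (hr : 0 < r) :
    SQ {x : Fin n ⊕ Fin n → ℝ | cpx x ∈ ball v r} := by
  have h1 : {x : Fin n ⊕ Fin n → ℝ | cpx x ∈ ball v r} = ⋂ i : Fin n,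
      {x | (x (Sum.inl i) - (v i).re) ^ 2 + (x (Sum.inr i) - (v i).im) ^ 2 < r ^ 2} := by
    ext x
    rw [mem_setOf_eq, ball_iff v hr, mem_iInter]
    rfl
  rw [h1]
  refine SQ.iInter fun i => ?_
  have h2 := SQ.lt
    ((MvPolynomial.X (Sum.inl i) - MvPolynomial.C (v i).re) ^ 2 +
      (MvPolynomial.X (Sum.inr i) - MvPolynomial.C (v i).im) ^ 2 :
      MvPolynomial (Fin n ⊕ Fin n) ℝ) (MvPolynomial.C (r ^ 2))
  simpa using h2

theorem sq_eq {n N : ℕ} (j : Fin n → Fin N) :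
    SQ {z : (Fin n ⊕ Fin n) ⊕ (Fin N ⊕ Fin N) → ℝ |
      ∀ i, cpx (fun k => z (Sum.inr k)) (j i) = cpx (fun k => z (Sum.inl k)) i} := by
  have h1 : {z : (Fin n ⊕ Fin n) ⊕ (Fin N ⊕ Fin N) → ℝ |
      ∀ i, cpx (fun k => z (Sum.inr k)) (j i) = cpx (fun k => z (Sum.inl k)) i} =
      ⋂ i : Fin n, {z | z (Sum.inr (Sum.inl (j i))) = z (Sum.inl (Sum.inl i))} ∩
        {z | z (Sum.inr (Sum.inr (j i))) = z (Sum.inl (Sum.inr i))} := by
    ext z
    simp only [mem_setOf_eq, mem_iInter, mem_inter_iff]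
    refine forall_congr' fun i => ?_
    rw [Complex.ext_iff]
    simp [cpx]
  rw [h1]
  refine SQ.iInter fun i => SQ.inter ?_ ?_
  · have h2 := SQ.eq (MvPolynomial.X (Sum.inr (Sum.inl (j i))) :
      MvPolynomial ((Fin n ⊕ Fin n) ⊕ (Fin N ⊕ Fin N)) ℝ) (MvPolynomial.X (Sum.inl (Sum.inl i)))
    simpa using h2
  · have h2 := SQ.eq (MvPolynomial.X (Sum.inr (Sum.inr (j i))) :
      MvPolynomial ((Fin n ⊕ Fin n) ⊕ (Fin N ⊕ Fin N)) ℝ) (MvPolynomial.X (Sum.inl (Sum.inr i)))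
    simpa using h2

/-- The derivative of the parametrization is injective. -/
theorem inj {N n : ℕ} {V : Set (Cn N)} (c : Chart V n) {w0 : Cn n} (hw0 : w0 ∈ c.W) :
    Function.Injective (fderiv ℂ c.psi w0) := by
  have hpsi : DifferentiableAt ℂ c.psi w0 :=
    (c.hpsi w0 hw0).differentiableAt (c.hW.mem_nhds hw0)
  have hb := c.psi_mem hw0
  have hpi : DifferentiableAt ℂ c.pi (c.psi w0) :=
    (c.hpi _ hb.2).differentiableAt (c.hO.mem_nhds hb.2)
  have h5 : HasFDerivAt (fun w => c.pi (c.psi w))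
      ((fderiv ℂ c.pi (c.psi w0)).comp (fderiv ℂ c.psi w0)) w0 :=
    hpi.hasFDerivAt.comp w0 hpsi.hasFDerivAt
  have h6 : HasFDerivAt (fun w => c.pi (c.psi w)) (ContinuousLinearMap.id ℂ (Cn n)) w0 := by
    refine (hasFDerivAt_id w0).congr_of_eventuallyEq ?_
    filter_upwards [c.hW.mem_nhds hw0] with w hw
    exact c.left w hw
  have h7 := h5.unique h6
  intro v v' hv
  have h8 : ∀ u, fderiv ℂ c.pi (c.psi w0) (fderiv ℂ c.psi w0 u) = u := fun u =>
    DFunLike.congr_fun h7 u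
  rw [← h8 v, ← h8 v', hv]

end AlCAux

open AlCAux

theorem tAlC (h1 : S_TSn) (h2 : S_SaQ) (h3 : S_Row) (h4 : S_InvC) : S_AlC := by
  intro N n J c w0 hw0
  have hpsi : DifferentiableAt ℂ c.psi w0 :=
    (c.hpsi w0 hw0).differentiableAt (c.hW.mem_nhds hw0)
  have hb := c.psi_mem hw0
  obtain ⟨j, hj⟩ := h3 n N (fderiv ℂ c.psi w0) (inj c hw0)
  set φ : Cn n → Cn n := fun w i => c.psi w (j i) with hφ
  have hφd : DifferentiableOn ℂ φ c.W :=
    differentiableOn_pi.2 (fun i => (differentiableOn_pi.1 c.hpsi (j i)))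
  have hφf : Function.Injective (fderiv ℂ φ w0) := by
    have h5 : HasFDerivAt φ (ContinuousLinearMap.pi fun i =>
        (ContinuousLinearMap.proj (R := ℂ) (φ := fun _ : Fin N => ℂ) (j i)).comp
          (fderiv ℂ c.psi w0)) w0 :=
      hasFDerivAt_pi.2 (fun i => (ContinuousLinearMap.proj (R := ℂ) (φ := fun _ : Fin N => ℂ)
        (j i)).hasFDerivAt.comp w0 hpsi.hasFDerivAt)
    rw [h5.fderiv]
    exact hj
  obtain ⟨e0, r, hr, he0W, he0O, he0b, he0pi⟩ := h4 n c.W φ w0 c.hW hw0 hφd hφf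
  have hv0 : φ w0 ∈ e0.W := by rw [he0W]; exact mem_ball_self hr
  have hw0O : w0 ∈ e0.O := by
    have := (e0.psi_mem hv0).2
    rwa [he0b] at this
  have hpiw0 : c.pi (c.psi w0) = w0 := c.left w0 hw0
  obtain ⟨ρ, hρ, hρ1⟩ : ∃ ρ > 0, ball (c.psi w0) ρ ⊆ c.O ∩ c.pi ⁻¹' e0.O :=
    Metric.isOpen_iff.1 (c.hpi.continuousOn.isOpen_inter_preimage c.hO e0.hO) _
      ⟨hb.2, by rw [mem_preimage, hpiw0]; exact hw0O⟩
  have hcont : ContinuousAt (fun w => c.psi (e0.psi w)) (φ w0) := by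
    have h6 : ContinuousAt e0.psi (φ w0) :=
      (e0.hpsi.continuousOn).continuousAt (e0.hW.mem_nhds hv0)
    have h7 : ContinuousAt c.psi (e0.psi (φ w0)) := by
      rw [he0b]; exact hpsi.continuousAt
    exact ContinuousAt.comp h7 h6
  obtain ⟨r'', hr'', hr1⟩ : ∃ r'' > 0, ∀ w ∈ ball (φ w0) r'',
      c.psi (e0.psi w) ∈ ball (c.psi w0) ρ := by
    have h6 := hcont.preimage_mem_nhds (ball_mem_nhds (c.psi (e0.psi (φ w0))) hρ)
    obtain ⟨r'', hr'', h7⟩ := Metric.mem_nhds_iff.1 h6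
    refine ⟨r'', hr'', fun w hw => ?_⟩
    have h8 := h7 hw
    rw [mem_preimage, he0b] at h8
    exact h8
  set r' := min r r'' with hr'
  have hr'0 : 0 < r' := lt_min hr hr''
  have hsub : ball (φ w0) r' ⊆ e0.W := by
    rw [he0W]; exact ball_subset_ball (min_le_left _ _)
  have hsub' : ball (φ w0) r' ⊆ ball (φ w0) r'' := ball_subset_ball (min_le_right _ _)
  have hφl : ∀ w ∈ e0.W, φ (e0.psi w) = w := fun w hw => by
    have := e0.left w hw
    rwa [he0pi] at this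
  have hφr : ∀ z ∈ e0.O, e0.psi (φ z) = z := fun z hz => by
    have := (e0.right (mem_univ z) hz).2
    rwa [he0pi] at this
  let e : Chart (univ : Set (Cn n)) n :=
    { W := ball (φ w0) r'
      O := e0.O ∩ φ ⁻¹' ball (φ w0) r'
      psi := e0.psi
      pi := φ
      hW := isOpen_ball
      hO := (hφd.mono he0O).continuousOn.isOpen_inter_preimage e0.hO isOpen_ball
      hpsi := e0.hpsi.mono hsub
      hpi := (hφd.mono he0O).mono inter_subset_left
      img := by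
        ext z
        constructor
        · rintro ⟨w, hw, rfl⟩
          refine ⟨mem_univ _, (e0.psi_mem (hsub hw)).2, ?_⟩
          rw [mem_preimage, hφl w (hsub hw)]
          exact hw
        · rintro ⟨-, hz, hz'⟩
          exact ⟨φ z, hz', hφr z hz⟩
      left := fun w hw => hφl w (hsub hw) }
  refine ⟨e, φ w0, mem_ball_self hr'0, he0b, fun U hU hSA => ?_⟩
  have hset : {x : Fin n ⊕ Fin n → ℝ | cpx x ∈ e.pre (c.pre U)} =
      {x | cpx x ∈ ball (φ w0) r'} ∩ {x | ∃ y : Fin N ⊕ Fin N → ℝ, (cpx y ∈ U ∧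
        cpx y ∈ ball (c.psi w0) ρ) ∧ ∀ i, cpx y (j i) = cpx x i} := by
    ext x
    constructor
    · rintro ⟨hx, hx1, hx2⟩
      change cpx x ∈ ball (φ w0) r' at hx
      change e0.psi (cpx x) ∈ c.W at hx1
      change c.psi (e0.psi (cpx x)) ∈ U at hx2
      refine ⟨hx, reim (c.psi (e0.psi (cpx x))), ⟨?_, ?_⟩, ?_⟩
      · rw [cpx_reim]; exact hx2
      · rw [cpx_reim]; exact hr1 _ (hsub' hx)
      · intro i
        rw [cpx_reim]
        exact congrFun (hφl _ (hsub hx)) i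
    · rintro ⟨hx, y, ⟨hy1, hy2⟩, hy3⟩
      obtain ⟨h6, h7⟩ := hρ1 hy2
      rw [mem_preimage] at h7
      obtain ⟨h8, h9⟩ := c.right (hU hy1) h6
      have h10 : φ (c.pi (cpx y)) = cpx x := by
        funext i
        rw [← hy3 i]
        exact congrFun h9 (j i)
      have h11 : e0.psi (cpx x) = c.pi (cpx y) := by rw [← h10]; exact hφr _ h7
      refine ⟨hx, ?_, ?_⟩
      · change e0.psi (cpx x) ∈ c.W
        rw [h11]; exact h8
      · change c.psi (e0.psi (cpx x)) ∈ U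
        rw [h11, h9]; exact hy1
  change SQ {x : Fin n ⊕ Fin n → ℝ | cpx x ∈ e.pre (c.pre U)}
  rw [hset]
  refine (sq_ball (φ w0) hr'0).inter ?_
  refine SQ.ex h1 (P := fun x y => (cpx y ∈ U ∧
        cpx y ∈ ball (c.psi w0) ρ) ∧ ∀ i, cpx y (j i) = cpx x i) ?_
  refine SQ.inter (SQ.inter ?_ ?_) (sq_eq j)
  · exact (h2 N U hSA).reidx (Sum.inr : Fin N ⊕ Fin N → (Fin n ⊕ Fin n) ⊕ (Fin N ⊕ Fin N))
  · exact (sq_ball (c.psi w0) hρ).reidx
      (Sum.inr : Fin N ⊕ Fin N → (Fin n ⊕ Fin n) ⊕ (Fin N ⊕ Fin N))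

end KV
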