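import Pool.Agent.Lib.KV.SpecK1

/-!
# KV, block K1, InvC: the holomorphic inverse function theorem
-/

set_option autoImplicit false

open Set Filter Topology Metric

namespace KV

open KP

theorem tInvC : S_InvC := by
  intro n W φ w0 hW hw0 hφ hinj
  have han : AnalyticOnNhd ℂ φ W := Pool.Agent.Lib.Osgood.analyticOnNhd hW hφ
  have hdet0 : (fderiv ℂ φ w0).det ≠ 0 := by
    rw [ContinuousLinearMap.det]
    exact (LinearMap.isUnit_det _ ((LinearMap.isUnit_iff_ker_eq_bot _).2
      (LinearMap.ker_eq_bot.2 hinj))).ne_zero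
  let L0 : Cn n ≃L[ℂ] Cn n := (fderiv ℂ φ w0).toContinuousLinearEquivOfDetNeZero hdet0
  have hL0 : (L0 : Cn n →L[ℂ] Cn n) = fderiv ℂ φ w0 :=
    (fderiv ℂ φ w0).coe_toContinuousLinearEquivOfDetNeZero hdet0
  have hs : HasStrictFDerivAt φ (L0 : Cn n →L[ℂ] Cn n) w0 := by
    rw [hL0]
    exact (han w0 hw0).hasStrictFDerivAt
  let P := hs.toOpenPartialHomeomorph φ
  have hPc : ∀ w, P w = φ w := fun w => by
    rw [show (P : Cn n → Cn n) = φ from hs.toOpenPartialHomeomorph_coe]
  have hPs : w0 ∈ P.source := hs.mem_toOpenPartialHomeomorph_source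
  -- the good set
  have hdc : ContinuousOn (fun w => (fderiv ℂ φ w).det) W :=
    ContinuousLinearMap.continuous_det.comp_continuousOn
      (Pool.Agent.Lib.Osgood.differentiableOn_fderiv hW hφ).continuousOn
  have hSo : IsOpen ((W ∩ (fun w => (fderiv ℂ φ w).det) ⁻¹' {0}ᶜ) ∩ P.source) :=
    (hdc.isOpen_inter_preimage hW isOpen_compl_singleton).inter P.open_source
  set S : Set (Cn n) := (W ∩ (fun w => (fderiv ℂ φ w).det) ⁻¹' {0}ᶜ) ∩ P.source with hS
  have hSs : S ⊆ P.source := inter_subset_right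
  have hSW : S ⊆ W := fun w hw => hw.1.1
  have hwS : w0 ∈ S := ⟨⟨hw0, hdet0⟩, hPs⟩
  have hPS : IsOpen (P '' S) := P.isOpen_image_of_subset_source hSo hSs
  have hmem : φ w0 ∈ P '' S := ⟨w0, hwS, hPc w0⟩
  obtain ⟨r, hr, hball⟩ := Metric.isOpen_iff.1 hPS _ hmem
  have hinv : ∀ y ∈ ball (φ w0) r, P.symm y ∈ S ∧ φ (P.symm y) = y := by
    intro y hy
    obtain ⟨w, hw, rfl⟩ := hball hy
    rw [P.left_inv (hSs hw)]
    exact ⟨hw, (hPc w).symm⟩
  refine ⟨{ W := ball (φ w0) r
            O := S ∩ φ ⁻¹' ball (φ w0) r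
            psi := P.symm
            pi := φ
            hW := isOpen_ball
            hO := (hφ.mono hSW).continuousOn.isOpen_inter_preimage hSo isOpen_ball
            hpsi := ?_
            hpi := hφ.mono fun w hw => hSW hw.1
            img := ?_
            left := fun y hy => (hinv y hy).2 }, r, hr, rfl, fun w hw => hSW hw.1, ?_, rfl⟩
  · intro y hy
    obtain ⟨h1, h2⟩ := hinv y hy
    have hdet : (fderiv ℂ φ (P.symm y)).det ≠ 0 := h1.1.2
    have hd : HasFDerivAt P ((fderiv ℂ φ (P.symm y)).toContinuousLinearEquivOfDetNeZero hdet :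
        Cn n →L[ℂ] Cn n) (P.symm y) := by
      rw [ContinuousLinearMap.coe_toContinuousLinearEquivOfDetNeZero,
        show (P : Cn n → Cn n) = φ from hs.toOpenPartialHomeomorph_coe]
      exact ((hφ _ (hSW h1)).differentiableAt (hW.mem_nhds (hSW h1))).hasFDerivAt
    have hyt : y ∈ P.target := by
      obtain ⟨w, hw, rfl⟩ := hball hy
      exact P.map_source (hSs hw)
    exact (P.hasFDerivAt_symm hyt hd).differentiableAt.differentiableWithinAt
  · ext w
    constructor
    · rintro ⟨y, hy, rfl⟩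
      obtain ⟨h1, h2⟩ := hinv y hy
      exact ⟨mem_univ _, h1, by rw [mem_preimage, h2]; exact hy⟩
    · rintro ⟨-, h1, h2⟩
      refine ⟨φ w, h2, ?_⟩
      rw [← hPc w, P.left_inv (hSs h1)]
  · change P.symm (φ w0) = w0
    rw [← hPc w0, P.left_inv hPs]

end KV
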