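import Pool.Agent.Lib.KV.SpecK1

set_option autoImplicit false

open Set Filter Topology Metric

namespace KV

open KP

theorem tKA (h1 : S_AlC) (h2 : S_VSing) (h3 : S_BdMax) (h4 : S_PkC) : S_KA := by
  intro N n I U hn hU hSA
  obtain ⟨J, hJ, g, hg1, hg2⟩ := h2 N n I U hU
  obtain ⟨c0, h0, -, hpk⟩ := h3 N n J U hn hJ g hg1 hg2
  obtain ⟨e, v0, hv0, hev, hsa⟩ := h1 N n J c0 0 h0
  have hUJ : U ⊆ zeroSet J := by
    obtain ⟨O, -, hO⟩ := hJ.opn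
    rw [hO]
    exact inter_subset_left
  refine ⟨J, hJ, c0.comp e, ?_, v0, ?_, ?_⟩
  · rw [Chart.comp_pre]
    exact hsa U hUJ hSA
  · refine ⟨hv0, ?_⟩
    change e.psi v0 ∈ c0.W
    rw [hev]
    exact h0
  · rw [Chart.comp_pre]
    refine (h4 n (c0.pre U) e (hJ.isOpen_pre c0) v0 hv0).2 ?_
    rw [hev]
    exact hpk

end KV
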