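import Pool.Agent.Lib.KV.SpecK1

/-!
# KV (MP_64edc4_ag, all dimensions), block K1: peak points by quadratic functions
-/

set_option autoImplicit false

open Set Filter Topology Metric

namespace KV

open KP

namespace PkQAux

variable {n : ℕ}

theorem cpx_add (c : Cn n) (y : Fin n ⊕ Fin n → ℝ) :
    cpx (fun i => reim c i + y i) = c + cpx y := by
  ext i
  have h := Complex.re_add_im (c i)
  simp only [cpx, reim, Sum.elim_inl, Sum.elim_inr, Pi.add_apply, Complex.ofReal_add]
  linear_combination h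

theorem nsq_eq (z : Cn n) : nsq z = ∑ i, reim z i ^ 2 := by
  rw [nsq, Fintype.sum_sum_type, ← Finset.sum_add_distrib]
  refine Finset.sum_congr rfl fun i _ => ?_
  rw [Complex.normSq_apply]
  simp [reim]
  ring

theorem abs_reim (z : Cn n) (i : Fin n ⊕ Fin n) : |reim z i| ≤ ‖z‖ := by
  rcases i with i | i
  · exact (Complex.abs_re_le_norm _).trans (norm_le_pi_norm z i)
  · exact (Complex.abs_im_le_norm _).trans (norm_le_pi_norm z i)

theorem norm_cpx {y : Fin n ⊕ Fin n → ℝ} {r : ℝ} (hr : 0 < r) (h : ∀ i, |y i| < r / 2) :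
    ‖cpx y‖ < r := by
  rw [pi_norm_lt_iff hr]
  intro i
  calc ‖cpx y i‖ ≤ ‖(y (Sum.inl i) : ℂ)‖ + ‖(y (Sum.inr i) : ℂ) * Complex.I‖ := norm_add_le _ _
    _ = |y (Sum.inl i)| + |y (Sum.inr i)| := by simp
    _ < r := by linarith [h (Sum.inl i), h (Sum.inr i)]

theorem norm_sq_le (v : Cn n) : ‖v‖ ^ 2 ≤ nsq v := by
  have h0 : 0 ≤ nsq v := Finset.sum_nonneg fun i _ => Complex.normSq_nonneg _
  have h1 : ‖v‖ ≤ Real.sqrt (nsq v) := by
    rw [pi_norm_le_iff_of_nonneg (Real.sqrt_nonneg _)]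
    intro i
    refine Real.le_sqrt_of_sq_le ?_
    rw [Complex.sq_norm]
    exact Finset.single_le_sum (f := fun i => Complex.normSq (v i))
      (fun i _ => Complex.normSq_nonneg _) (Finset.mem_univ i)
  calc ‖v‖ ^ 2 ≤ Real.sqrt (nsq v) ^ 2 := by gcongr
    _ = nsq v := Real.sq_sqrt h0

/-- The real basis vectors. -/
noncomputable def bv (i : Fin n ⊕ Fin n) : Cn n := cpx (Pi.single i 1)

theorem cpx_eq (y : Fin n ⊕ Fin n → ℝ) : cpx y = ∑ i, y i • bv i := by
  classical
  ext k
  rw [Finset.sum_apply, Fintype.sum_sum_type]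
  have h1 : ∀ i : Fin n, (y (Sum.inl i) • bv (Sum.inl i) : Cn n) k =
      if k = i then (y (Sum.inl i) : ℂ) else 0 := by
    intro i
    by_cases h : k = i
    · subst h
      simp [bv, cpx]
    · simp [bv, cpx, h]
  have h2 : ∀ i : Fin n, (y (Sum.inr i) • bv (Sum.inr i) : Cn n) k =
      if k = i then (y (Sum.inr i) : ℂ) * Complex.I else 0 := by
    intro i
    by_cases h : k = i
    · subst h
      simp [bv, cpx]
    · simp [bv, cpx, h]
  simp_rw [h1, h2]
  simp [cpx]

theorem I_cpx (y : Fin n ⊕ Fin n → ℝ) : Complex.I • cpx y = cpx (jr y) := by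
  ext i
  simp only [cpx, jr, Sum.elim_inl, Sum.elim_inr, Pi.smul_apply, smul_eq_mul, Complex.ofReal_neg]
  have h : Complex.I * Complex.I = -1 := Complex.I_mul_I
  linear_combination (y (Sum.inr i) : ℂ) * h

theorem lin (L : Cn n →L[ℝ] ℝ) (y : Fin n ⊕ Fin n → ℝ) :
    L (cpx y) = ∑ i, L (bv i) * y i := by
  rw [cpx_eq, map_sum]
  refine Finset.sum_congr rfl fun i _ => ?_
  rw [map_smul, smul_eq_mul, mul_comm]

theorem bil (T : Cn n →L[ℝ] (Cn n →L[ℝ] ℝ)) (y : Fin n ⊕ Fin n → ℝ) :
    T (cpx y) (cpx y) = 2 * Bq (fun p => T (bv p.1) (bv p.2) / 2) y := by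
  have h0 : ∀ w, T (cpx y) w = ∑ i, y i * T (bv i) w := by
    intro w
    rw [cpx_eq y, map_sum, ContinuousLinearMap.sum_apply]
    refine Finset.sum_congr rfl fun i _ => ?_
    rw [map_smul, ContinuousLinearMap.smul_apply, smul_eq_mul]
  have h1 : T (cpx y) (cpx y) = ∑ i, y i * T (bv i) (cpx y) := h0 _
  rw [h1, Bq, Finset.mul_sum]
  refine Finset.sum_congr rfl fun i _ => ?_
  rw [lin, Finset.mul_sum, Finset.mul_sum]
  refine Finset.sum_congr rfl fun j _ => ?_
  ring

end PkQAux

open PkQAux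

theorem tPkQ (h1 : S_QdF) (h2 : S_Tay) : S_PkQ := by
  intro n A c
  constructor
  · rintro ⟨hcA, hcl, Φ, hΦ, hL, η, hη, hev⟩
    refine ⟨hcA, hcl, fun i => fderiv ℝ Φ c (bv i),
      fun p => fderiv ℝ (fderiv ℝ Φ) c (bv p.1) (bv p.2) / 2, ?_, η / 2, by positivity, ?_⟩
    · intro y hy
      have hv : cpx y ≠ 0 := by
        intro h
        apply hy
        rw [← reim_cpx y, h]
        ext i
        rcases i with i | i <;> simp [reim]
      have h3 := hL (cpx y) hv
      rw [Lv, D2, D2, I_cpx, bil, bil] at h3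
      linarith
    · obtain ⟨r1, hr1, hT⟩ := h2 n Φ c hΦ (η / 2) (by positivity)
      obtain ⟨r2, hr2, hB⟩ := Metric.eventually_nhds_iff.1 hev
      refine ⟨min r1 r2 / 2, by positivity, fun y hy hyA => ?_⟩
      rw [cpx_add] at hyA
      have hn : ‖cpx y‖ < min r1 r2 := norm_cpx (lt_min hr1 hr2) hy
      have h3 := (abs_le.1 (hT (cpx y) (hn.trans_le (min_le_left _ _)))).1
      have h4 := hB (y := c + cpx y) (by
        rw [dist_eq_norm, add_sub_cancel_left]
        exact hn.trans_le (min_le_right _ _)) hyA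
      rw [add_sub_cancel_left] at h4
      have h5 := norm_sq_le (cpx y)
      have h6 : nsq (cpx y) = ∑ i, y i ^ 2 := by rw [nsq_eq, reim_cpx]
      rw [D2, bil, lin] at h3
      rw [h6] at h4 h5
      nlinarith
  · rintro ⟨hcA, hcl, a, B, hB, η, hη, r, hr, h⟩
    obtain ⟨h3, h4⟩ := h1 n a B c
    refine ⟨hcA, hcl, _, h3, fun v hv => ?_, η, hη, ?_⟩
    · rw [h4]
      have h5 : reim v ≠ 0 := by
        intro h0
        apply hv
        rw [← cpx_reim v, h0]
        ext i
        simp [cpx]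
      have := hB _ h5
      linarith
    · filter_upwards [ball_mem_nhds c hr] with z hz hzA
      have h5 : ∀ i, |reim (z - c) i| < r := fun i =>
        (abs_reim (z - c) i).trans_lt (by rwa [mem_ball, dist_eq_norm] at hz)
      have h6 := h (reim (z - c)) h5 (by
        rw [cpx_add, cpx_reim, add_sub_cancel]
        exact hzA)
      have h7 : reim (c - c) = 0 := by
        ext i
        rcases i with i | i <;> simp [reim]
      rw [h7, nsq_eq]
      simpa [Bq] using h6

end KV
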