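import Pool.Agent.Lib.KV.SpecK1

/-!
# KV, block K1, PkS: the set of the peak points is semialgebraic
-/

set_option autoImplicit false

open Set Filter Topology Metric

namespace KV

open KP

namespace PkSAux

variable {I : Type}

/-- polynomial functions -/
def IsP (f : (I → ℝ) → ℝ) : Prop :=
  ∃ p : MvPolynomial I ℝ, ∀ z, MvPolynomial.eval z p = f z

theorem IsP.coord (i : I) : IsP (fun z : I → ℝ => z i) :=
  ⟨MvPolynomial.X i, fun _ => MvPolynomial.eval_X i⟩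

theorem IsP.const (c : ℝ) : IsP (fun _ : I → ℝ => c) :=
  ⟨MvPolynomial.C c, fun _ => MvPolynomial.eval_C c⟩

theorem IsP.add {f g : (I → ℝ) → ℝ} (hf : IsP f) (hg : IsP g) : IsP (fun z => f z + g z) := by
  obtain ⟨p, hp⟩ := hf
  obtain ⟨q, hq⟩ := hg
  exact ⟨p + q, fun z => by rw [map_add, hp, hq]⟩

theorem IsP.sub {f g : (I → ℝ) → ℝ} (hf : IsP f) (hg : IsP g) : IsP (fun z => f z - g z) := by
  obtain ⟨p, hp⟩ := hf
  obtain ⟨q, hq⟩ := hg
  exact ⟨p - q, fun z => by rw [map_sub, hp, hq]⟩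

theorem IsP.neg {f : (I → ℝ) → ℝ} (hf : IsP f) : IsP (fun z => - f z) := by
  obtain ⟨p, hp⟩ := hf
  exact ⟨-p, fun z => by rw [map_neg, hp]⟩

theorem IsP.mul {f g : (I → ℝ) → ℝ} (hf : IsP f) (hg : IsP g) : IsP (fun z => f z * g z) := by
  obtain ⟨p, hp⟩ := hf
  obtain ⟨q, hq⟩ := hg
  exact ⟨p * q, fun z => by rw [map_mul, hp, hq]⟩

theorem IsP.sum {J : Type} (s : Finset J) {f : J → (I → ℝ) → ℝ} (hf : ∀ j, IsP (f j)) :
    IsP (fun z => ∑ j ∈ s, f j z) := by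
  choose p hp using hf
  exact ⟨∑ j ∈ s, p j, fun z => by
    rw [map_sum]
    exact Finset.sum_congr rfl fun j _ => hp j z⟩

theorem sq_lt {f g : (I → ℝ) → ℝ} (hf : IsP f) (hg : IsP g) : SQ {z | f z < g z} := by
  obtain ⟨p, hp⟩ := hf
  obtain ⟨q, hq⟩ := hg
  have h := SQ.lt p q
  simp only [hp, hq] at h
  exact h

theorem sq_le {f g : (I → ℝ) → ℝ} (hf : IsP f) (hg : IsP g) : SQ {z | f z ≤ g z} := by
  obtain ⟨p, hp⟩ := hf
  obtain ⟨q, hq⟩ := hg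
  have h := SQ.le p q
  simp only [hp, hq] at h
  exact h

theorem sq_eq {f g : (I → ℝ) → ℝ} (hf : IsP f) (hg : IsP g) : SQ {z | f z = g z} := by
  obtain ⟨p, hp⟩ := hf
  obtain ⟨q, hq⟩ := hg
  have h := SQ.eq p q
  simp only [hp, hq] at h
  exact h

theorem sq_imp {P Q : (I → ℝ) → Prop} (hP : SQ {z | P z}) (hQ : SQ {z | Q z}) :
    SQ {z | P z → Q z} := by
  have h := hP.compl.union hQ
  have h2 : {z | P z}ᶜ ∪ {z | Q z} = {z | P z → Q z} := by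
    ext z
    simp only [mem_union, mem_compl_iff, mem_ofPred_eq]
    exact imp_iff_not_or.symm
  rwa [h2] at h

theorem sq_and {P Q : (I → ℝ) → Prop} (hP : SQ {z | P z}) (hQ : SQ {z | Q z}) :
    SQ {z | P z ∧ Q z} := hP.inter hQ

theorem sq_all {J : Type} [Finite J] {P : J → (I → ℝ) → Prop} (h : ∀ j, SQ {z | P j z}) :
    SQ {z | ∀ j, P j z} := by
  have h1 := SQ.iInter h
  have h2 : (⋂ j, {z | P j z}) = {z | ∀ j, P j z} := by
    ext z
    simp only [mem_iInter, mem_ofPred_eq]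
  rwa [h2] at h1

theorem sq_abs {f g : (I → ℝ) → ℝ} (hf : IsP f) (hg : IsP g) : SQ {z | |f z| < g z} := by
  have h := sq_and (sq_lt hf hg) (sq_lt hf.neg hg)
  have h2 : {z | f z < g z ∧ - f z < g z} = {z | |f z| < g z} := by
    ext z
    constructor
    · rintro ⟨h3, h4⟩
      exact abs_lt.2 ⟨by linarith, h3⟩
    · intro (h3 : |f z| < g z)
      obtain ⟨h4, h5⟩ := abs_lt.1 h3
      exact ⟨h5, by linarith⟩
  rwa [h2] at h

theorem sq_ne {J : Type} [Finite J] {f : J → (I → ℝ) → ℝ} (hf : ∀ j, IsP (f j)) :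
    SQ {z | (fun j => f j z) ≠ 0} := by
  have h := (sq_all fun j => sq_eq (hf j) (IsP.const 0)).compl
  have h2 : {z | ∀ j, f j z = 0}ᶜ = {z | (fun j => f j z) ≠ 0} := by
    ext z
    simp only [mem_compl_iff, mem_ofPred_eq, ne_eq, funext_iff, Pi.zero_apply]
  rwa [h2] at h

theorem sq_mem {n : ℕ} {A : Set (Cn n)} (hA : SC A) {f : Fin n ⊕ Fin n → (I → ℝ) → ℝ}
    (hf : ∀ i, IsP (f i)) : SQ {z | cpx (fun i => f i z) ∈ A} := by
  choose p hp using hf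
  have h := SQ.preim hA p
  simp only [hp] at h
  exact h

theorem isP_Bq {ι : Type} [Fintype ι] {b : ι × ι → (I → ℝ) → ℝ} {y : ι → (I → ℝ) → ℝ}
    (hb : ∀ p, IsP (b p)) (hy : ∀ i, IsP (y i)) :
    IsP (fun z => Bq (fun p => b p z) (fun i => y i z)) :=
  IsP.sum _ fun i => IsP.sum _ fun j => ((hb (i, j)).mul (hy i)).mul (hy j)

theorem isP_jr {n : ℕ} {y : Fin n ⊕ Fin n → (I → ℝ) → ℝ} (hy : ∀ i, IsP (y i)) :
    ∀ i, IsP (fun z => jr (fun i => y i z) i) := by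
  intro i
  rcases i with i | i
  · exact (hy _).neg
  · exact hy _

theorem norm_cpx_sub_lt {n : ℕ} {x y : Fin n ⊕ Fin n → ℝ} {ε : ℝ} (hε : 0 < ε)
    (h : ∀ i, |y i - x i| < ε / 3) : dist (cpx x) (cpx y) < ε := by
  rw [dist_comm, dist_eq_norm, pi_norm_lt_iff hε]
  intro i
  have h1 : (cpx y - cpx x) i = ((y (Sum.inl i) - x (Sum.inl i) : ℝ) : ℂ) +
      ((y (Sum.inr i) - x (Sum.inr i) : ℝ) : ℂ) * Complex.I := by
    simp only [cpx, Pi.sub_apply]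
    push_cast
    ring
  rw [h1]
  refine (norm_add_le _ _).trans_lt ?_
  rw [norm_mul, Complex.norm_I, mul_one, Complex.norm_real, Complex.norm_real, Real.norm_eq_abs,
    Real.norm_eq_abs]
  have h2 := h (Sum.inl i)
  have h3 := h (Sum.inr i)
  linarith

theorem abs_reim_sub_lt {n : ℕ} {x : Fin n ⊕ Fin n → ℝ} {b : Cn n} {ε : ℝ}
    (h : dist (cpx x) b < ε) (i : Fin n ⊕ Fin n) : |reim b i - x i| < ε := by
  have h0 : ‖b - cpx x‖ < ε := by rwa [dist_comm, dist_eq_norm] at h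
  rcases i with i | i
  · have h1 : reim b (Sum.inl i) - x (Sum.inl i) = ((b - cpx x) i).re := by
      simp [reim, cpx]
    rw [h1]
    exact (Complex.abs_re_le_norm _).trans_lt ((norm_le_pi_norm (b - cpx x) i).trans_lt h0)
  · have h1 : reim b (Sum.inr i) - x (Sum.inr i) = ((b - cpx x) i).im := by
      simp [reim, cpx]
    rw [h1]
    exact (Complex.abs_im_le_norm _).trans_lt ((norm_le_pi_norm (b - cpx x) i).trans_lt h0)

theorem closure_iff {n : ℕ} {A : Set (Cn n)} (x : Fin n ⊕ Fin n → ℝ) :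
    cpx x ∈ closure A ↔ ∀ ε : ℝ, 0 < ε → ∃ y : Fin n ⊕ Fin n → ℝ,
      (∀ i, |y i - x i| < ε) ∧ cpx y ∈ A := by
  rw [Metric.mem_closure_iff]
  constructor
  · intro h ε hε
    obtain ⟨b, hb, hd⟩ := h ε hε
    refine ⟨reim b, fun i => abs_reim_sub_lt hd i, ?_⟩
    rwa [cpx_reim]
  · intro h ε hε
    obtain ⟨y, hy, hyA⟩ := h (ε / 3) (by positivity)
    exact ⟨cpx y, hyA, norm_cpx_sub_lt hε hy⟩

end PkSAux

open PkSAux in
theorem tPkS (hT : S_TSn) (hP : S_PkQ) : S_PkS := by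
  intro n A hA
  have hset : {x : Fin n ⊕ Fin n → ℝ | cpx x ∈ Pk A} = {x | cpx x ∈ A}ᶜ ∩
      ({x | ∀ ε : ℝ, 0 < ε → ∃ y : Fin n ⊕ Fin n → ℝ, (∀ i, |y i - x i| < ε) ∧ cpx y ∈ A} ∩
      {x | ∃ a : Fin n ⊕ Fin n → ℝ, ∃ B : (Fin n ⊕ Fin n) × (Fin n ⊕ Fin n) → ℝ,
        (∀ y : Fin n ⊕ Fin n → ℝ, y ≠ 0 → 0 < Bq B y + Bq B (jr y)) ∧
        ∃ η : ℝ, 0 < η ∧ ∃ r : ℝ, 0 < r ∧ ∀ y : Fin n ⊕ Fin n → ℝ, (∀ i, |y i| < r) →
          cpx (fun i => x i + y i) ∈ A →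
            (∑ i, a i * y i) + Bq B y + η * ∑ i, y i * y i ≤ 0}) := by
    ext x
    simp only [mem_ofPred_eq, mem_inter_iff, mem_compl_iff]
    rw [hP n A (cpx x), ← closure_iff, reim_cpx]
    refine and_congr_right fun _ => and_congr_right fun _ => ?_
    simp only [pow_two, gt_iff_lt]
  change SQ {x : Fin n ⊕ Fin n → ℝ | cpx x ∈ Pk A}
  rw [hset]
  refine (SQ.compl hA).inter (SQ.inter ?_ ?_)
  · -- the closure
    refine SQ.all1 hT (P := fun (x : Fin n ⊕ Fin n → ℝ) (ε : ℝ) => 0 < ε →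
      ∃ y : Fin n ⊕ Fin n → ℝ, (∀ i, |y i - x i| < ε) ∧ cpx y ∈ A) ?_
    refine sq_imp (sq_lt (IsP.const 0) (IsP.coord none)) ?_
    refine SQ.ex hT (P := fun (z : Option (Fin n ⊕ Fin n) → ℝ) (y : Fin n ⊕ Fin n → ℝ) =>
      (∀ i, |y i - z (some i)| < z none) ∧ cpx y ∈ A) ?_
    refine sq_and (sq_all fun i => sq_abs ((IsP.coord (Sum.inr i)).sub
      (IsP.coord (Sum.inl (some i)))) (IsP.coord (Sum.inl none))) ?_
    exact sq_mem hA fun i => IsP.coord (Sum.inr i)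
  · refine SQ.ex hT (P := fun (x a : Fin n ⊕ Fin n → ℝ) =>
        ∃ B : (Fin n ⊕ Fin n) × (Fin n ⊕ Fin n) → ℝ,
        (∀ y : Fin n ⊕ Fin n → ℝ, y ≠ 0 → 0 < Bq B y + Bq B (jr y)) ∧
        ∃ η : ℝ, 0 < η ∧ ∃ r : ℝ, 0 < r ∧ ∀ y : Fin n ⊕ Fin n → ℝ, (∀ i, |y i| < r) →
          cpx (fun i => x i + y i) ∈ A →
            (∑ i, a i * y i) + Bq B y + η * ∑ i, y i * y i ≤ 0) ?_
    refine SQ.ex hT (P := fun (z : (Fin n ⊕ Fin n) ⊕ (Fin n ⊕ Fin n) → ℝ)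
        (B : (Fin n ⊕ Fin n) × (Fin n ⊕ Fin n) → ℝ) =>
        (∀ y : Fin n ⊕ Fin n → ℝ, y ≠ 0 → 0 < Bq B y + Bq B (jr y)) ∧
        ∃ η : ℝ, 0 < η ∧ ∃ r : ℝ, 0 < r ∧ ∀ y : Fin n ⊕ Fin n → ℝ, (∀ i, |y i| < r) →
          cpx (fun i => z (Sum.inl i) + y i) ∈ A →
            (∑ i, z (Sum.inr i) * y i) + Bq B y + η * ∑ i, y i * y i ≤ 0) ?_
    refine sq_and ?_ ?_
    · refine SQ.all hT (P := fun (z : ((Fin n ⊕ Fin n) ⊕ (Fin n ⊕ Fin n)) ⊕
          (Fin n ⊕ Fin n) × (Fin n ⊕ Fin n) → ℝ) (y : Fin n ⊕ Fin n → ℝ) => y ≠ 0 →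
          0 < Bq (fun p => z (Sum.inr p)) y + Bq (fun p => z (Sum.inr p)) (jr y)) ?_
      refine sq_imp (sq_ne fun i => IsP.coord (Sum.inr i)) ?_
      refine sq_lt (IsP.const 0) (IsP.add ?_ ?_)
      · exact isP_Bq (fun p => IsP.coord (Sum.inl (Sum.inr p))) fun i => IsP.coord (Sum.inr i)
      · exact isP_Bq (fun p => IsP.coord (Sum.inl (Sum.inr p)))
          (isP_jr fun i => IsP.coord (Sum.inr i))
    · refine SQ.ex1 hT (P := fun (z : ((Fin n ⊕ Fin n) ⊕ (Fin n ⊕ Fin n)) ⊕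
          (Fin n ⊕ Fin n) × (Fin n ⊕ Fin n) → ℝ) (η : ℝ) => 0 < η ∧
          ∃ r : ℝ, 0 < r ∧ ∀ y : Fin n ⊕ Fin n → ℝ, (∀ i, |y i| < r) →
          cpx (fun i => z (Sum.inl (Sum.inl i)) + y i) ∈ A →
            (∑ i, z (Sum.inl (Sum.inr i)) * y i) + Bq (fun p => z (Sum.inr p)) y +
              η * ∑ i, y i * y i ≤ 0) ?_
      refine sq_and (sq_lt (IsP.const 0) (IsP.coord none)) ?_
      refine SQ.ex1 hT (P := fun (z : Option (((Fin n ⊕ Fin n) ⊕ (Fin n ⊕ Fin n)) ⊕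
          (Fin n ⊕ Fin n) × (Fin n ⊕ Fin n)) → ℝ) (r : ℝ) => 0 < r ∧
          ∀ y : Fin n ⊕ Fin n → ℝ, (∀ i, |y i| < r) →
          cpx (fun i => z (some (Sum.inl (Sum.inl i))) + y i) ∈ A →
            (∑ i, z (some (Sum.inl (Sum.inr i))) * y i) +
              Bq (fun p => z (some (Sum.inr p))) y + z none * ∑ i, y i * y i ≤ 0) ?_
      refine sq_and (sq_lt (IsP.const 0) (IsP.coord none)) ?_
      refine SQ.all hT (P := fun (z : Option (Option (((Fin n ⊕ Fin n) ⊕ (Fin n ⊕ Fin n)) ⊕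
          (Fin n ⊕ Fin n) × (Fin n ⊕ Fin n))) → ℝ) (y : Fin n ⊕ Fin n → ℝ) =>
          (∀ i, |y i| < z none) →
          cpx (fun i => z (some (some (Sum.inl (Sum.inl i)))) + y i) ∈ A →
            (∑ i, z (some (some (Sum.inl (Sum.inr i)))) * y i) +
              Bq (fun p => z (some (some (Sum.inr p)))) y +
                z (some none) * ∑ i, y i * y i ≤ 0) ?_
      refine sq_imp (sq_all fun i => sq_abs (IsP.coord (Sum.inr i))
        (IsP.coord (Sum.inl none))) ?_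
      refine sq_imp (sq_mem hA fun i => (IsP.coord (Sum.inl
        (some (some (Sum.inl (Sum.inl i)))))).add (IsP.coord (Sum.inr i))) ?_
      refine sq_le (IsP.add (IsP.add ?_ ?_) ?_) (IsP.const 0)
      · exact IsP.sum _ fun i => (IsP.coord _).mul (IsP.coord _)
      · exact isP_Bq (fun p => IsP.coord (Sum.inl (some (some (Sum.inr p)))))
          fun i => IsP.coord (Sum.inr i)
      · exact (IsP.coord _).mul (IsP.sum _ fun i => (IsP.coord _).mul (IsP.coord _))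

end KV
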