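import Pool.Agent.Lib.KV.SpecK1

/-!
# KV, block K1: quadratic functions
-/

set_option autoImplicit false

open Set Filter Topology Metric

namespace KV

open KP

namespace QdFAux

/-- The real coordinates, as a continuous linear map. -/
noncomputable def ρ (n : ℕ) : Cn n →L[ℝ] (Fin n ⊕ Fin n → ℝ) :=
  ContinuousLinearMap.pi fun i => Sum.elim
    (fun i => Complex.reCLM.comp (ContinuousLinearMap.proj (R := ℝ) (φ := fun _ : Fin n => ℂ) i))
    (fun i => Complex.imCLM.comp (ContinuousLinearMap.proj (R := ℝ) (φ := fun _ : Fin n => ℂ) i)) i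

theorem ρ_apply {n : ℕ} (z : Cn n) : ρ n z = reim z := by
  ext i
  rcases i with i | i <;> rfl

/-- A coordinate. -/
noncomputable def co {n : ℕ} (i : Fin n ⊕ Fin n) : Cn n →L[ℝ] ℝ :=
  (ContinuousLinearMap.proj (R := ℝ) (φ := fun _ : Fin n ⊕ Fin n => ℝ) i).comp (ρ n)

theorem co_apply {n : ℕ} (i : Fin n ⊕ Fin n) (z : Cn n) : co i z = reim z i := by
  rw [← ρ_apply]; rfl

variable {E : Type} [NormedAddCommGroup E] [NormedSpace ℝ E]

theorem quad_fderiv (l : E →L[ℝ] ℝ) (b : E →L[ℝ] E →L[ℝ] ℝ) (c z : E) :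
    HasFDerivAt (fun z => l (z - c) + b (z - c) (z - c)) (l + (b (z - c) + b.flip (z - c))) z := by
  have h0 : HasFDerivAt (fun z => z - c) (ContinuousLinearMap.id ℝ E) z :=
    (hasFDerivAt_id z).sub_const c
  have h1 : HasFDerivAt (fun z => l (z - c)) (l.comp (ContinuousLinearMap.id ℝ E)) z :=
    l.hasFDerivAt.comp z h0
  have h2 : HasFDerivAt (fun z => b (z - c)) (b.comp (ContinuousLinearMap.id ℝ E)) z :=
    b.hasFDerivAt.comp z h0
  have h3 := h1.add (h2.clm_apply h0)
  refine h3.congr_fderiv ?_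
  ext v
  simp

theorem quad_D2 (l : E →L[ℝ] ℝ) (b : E →L[ℝ] E →L[ℝ] ℝ) (c v : E) :
    fderiv ℝ (fderiv ℝ (fun z => l (z - c) + b (z - c) (z - c))) c v v = 2 * b v v := by
  have h1 : fderiv ℝ (fun z => l (z - c) + b (z - c) (z - c)) =
      fun z => l + (b (z - c) + b.flip (z - c)) := by
    funext z
    exact (quad_fderiv l b c z).fderiv
  rw [h1]
  have h0 : HasFDerivAt (fun z => z - c) (ContinuousLinearMap.id ℝ E) c :=
    (hasFDerivAt_id c).sub_const c
  have h2 : HasFDerivAt (fun z => b (z - c)) (b.comp (ContinuousLinearMap.id ℝ E)) c :=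
    b.hasFDerivAt.comp c h0
  have h3 : HasFDerivAt (fun z => b.flip (z - c)) (b.flip.comp (ContinuousLinearMap.id ℝ E)) c :=
    b.flip.hasFDerivAt.comp c h0
  have h4 : HasFDerivAt (fun z => l + (b (z - c) + b.flip (z - c)))
      (b.comp (ContinuousLinearMap.id ℝ E) + b.flip.comp (ContinuousLinearMap.id ℝ E)) c :=
    (h2.add h3).const_add l
  rw [h4.fderiv]
  simp
  ring

theorem quad_contDiff (l : E →L[ℝ] ℝ) (b : E →L[ℝ] E →L[ℝ] ℝ) (c : E) :
    ContDiff ℝ 2 (fun z => l (z - c) + b (z - c) (z - c)) := by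
  have h0 : ContDiff ℝ 2 (fun z : E => z - c) := contDiff_id.sub contDiff_const
  exact (l.contDiff.comp h0).add ((b.contDiff.comp h0).clm_apply h0)

/-- The linear part. -/
noncomputable def lin {n : ℕ} (a : Fin n ⊕ Fin n → ℝ) : Cn n →L[ℝ] ℝ := ∑ i, a i • co i

/-- The bilinear form. -/
noncomputable def bil {n : ℕ} (B : (Fin n ⊕ Fin n) × (Fin n ⊕ Fin n) → ℝ) :
    Cn n →L[ℝ] Cn n →L[ℝ] ℝ := ∑ i, ∑ j, B (i, j) • (co i).smulRight (co j)

theorem lin_apply {n : ℕ} (a : Fin n ⊕ Fin n → ℝ) (z : Cn n) :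
    lin a z = ∑ i, a i * reim z i := by
  unfold lin
  rw [_root_.sum_apply]
  refine Finset.sum_congr rfl fun i _ => ?_
  rw [_root_.smul_apply, co_apply, smul_eq_mul]

theorem bil_apply {n : ℕ} (B : (Fin n ⊕ Fin n) × (Fin n ⊕ Fin n) → ℝ) (z : Cn n) :
    bil B z z = Bq B (reim z) := by
  unfold bil Bq
  rw [_root_.sum_apply, _root_.sum_apply]
  refine Finset.sum_congr rfl fun i _ => ?_
  rw [_root_.sum_apply, _root_.sum_apply]
  refine Finset.sum_congr rfl fun j _ => ?_
  rw [_root_.smul_apply, _root_.smul_apply,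
    ContinuousLinearMap.smulRight_apply, _root_.smul_apply, co_apply, co_apply]
  simp only [smul_eq_mul]
  ring

theorem reim_I {n : ℕ} (v : Cn n) : reim (Complex.I • v) = jr (reim v) := by
  ext i
  rcases i with i | i <;> simp [reim, jr]

end QdFAux

open QdFAux

theorem tQdF : S_QdF := by
  intro n a B c
  have hf : (fun z : Cn n => (∑ i, a i * reim (z - c) i) + Bq B (reim (z - c))) =
      fun z => lin a (z - c) + bil B (z - c) (z - c) := by
    funext z
    rw [lin_apply, bil_apply]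
  rw [hf]
  refine ⟨(quad_contDiff (lin a) (bil B) c).contDiffAt, fun v => ?_⟩
  unfold Lv D2
  rw [quad_D2, quad_D2, bil_apply, bil_apply, reim_I]
  ring

end KV
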