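import Pool.Agent.Lib.KV.SpecK1

/-!
# KV (MP_64edc4_ag, all dimensions), block K1: an invertible square block of an injective map
-/

set_option autoImplicit false

open Set Filter Topology Metric

namespace KV

open KP

theorem tRow : S_Row := by
  classical
  intro n N L hL
  set M : Matrix (Fin N) (Fin n) ℂ := LinearMap.toMatrix' (L : Cn n →ₗ[ℂ] Cn N) with hM
  have hMv : ∀ v, M.mulVec v = L v := fun v => LinearMap.toMatrix'_mulVec (L : Cn n →ₗ[ℂ] Cn N) v
  have hinj : Function.Injective M.mulVec := by
    intro v w h
    exact hL (by rw [← hMv, ← hMv]; exact h)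
  have hrk : M.rank = n := by
    have h1 : M.rank = Module.finrank ℂ (LinearMap.range M.mulVecLin) := rfl
    rw [h1, LinearMap.finrank_range_of_inj hinj]
    simp
  obtain ⟨κ, a, ha, hsp, hli⟩ := exists_linearIndependent' ℂ M.row
  haveI : Finite κ := Finite.of_injective a ha
  haveI := Fintype.ofFinite κ
  have hcard : Fintype.card κ = n := by
    rw [← finrank_span_eq_card hli, hsp, ← Matrix.rank_eq_finrank_span_row, hrk]
  let e : Fin n ≃ κ := (Fintype.equivFinOfCardEq hcard).symm
  refine ⟨fun i => a (e i), ?_⟩
  set A : Matrix (Fin n) (Fin n) ℂ := fun i k => M (a (e i)) k with hA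
  have hAr : LinearIndependent ℂ A.row := hli.comp e e.injective
  have hAu : IsUnit A := Matrix.linearIndependent_rows_iff_isUnit.1 hAr
  have hAi : Function.Injective A.mulVec := Matrix.mulVec_injective_iff_isUnit.2 hAu
  intro v w h
  refine hAi ?_
  have h2 : ∀ u, A.mulVec u = fun i => L u (a (e i)) := by
    intro u
    ext i
    rw [← hMv u]
    rfl
  rw [h2, h2]
  exact h

end KV
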