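import Pool.Agent.Lib.KV.SpecK1

/-!
# KV (MP_64edc4_ag), block K1: semialgebraic subsets are described by real polynomials
-/

set_option autoImplicit false

open Set Filter Topology Metric

namespace KV

open KP

theorem tSaQ : S_SaQ := by
  intro n U hU
  unfold SC
  induction hU with
  | pos p => simpa only [mem_ofPred_eq, reim_cpx] using SQ.pos p
  | zero p => simpa only [mem_ofPred_eq, reim_cpx] using SQ.zero p
  | compl _ ih => exact ih.compl
  | inter _ _ ih1 ih2 => exact ih1.inter ih2

end KV
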